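import Pool.Agent.MP_d5eec5_gt.H77.KSpec
import Pool.Agent.MP_d5eec5_gt.H77.GBasic

/-! Line data versus placements. -/

set_option autoImplicit false

namespace Pool.Agent.MP_d5eec5_gt.H77

open Pool.Agent.MP_d5eec5_gt.H48 Finset

theorem br_nodup {l : List ℕ} {p : ℕ → ℚ} (hs : l.Pairwise fun x y => p x < p y) : l.Nodup :=
  hs.imp fun {x y} h e => by rw [e] at h; exact lt_irrefl _ h

theorem br_inj {l : List ℕ} {p : ℕ → ℚ} (hs : l.Pairwise fun x y => p x < p y) {x y : ℕ}
    (hx : x ∈ l) (hy : y ∈ l) (hxy : x ≠ y) : p x ≠ p y := by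
  have h : l.Pairwise fun x y => p x ≠ p y := hs.imp fun h => h.ne
  have : Std.Symm fun x y : ℕ => p x ≠ p y := ⟨fun _ _ h => h.symm⟩
  exact h.forall hx hy hxy

theorem br_count (l : List ℕ) (hl : l.Nodup) (f : ℕ → ℕ) (b : ℕ) :
    (l.map f).count b = ∑ y ∈ l.toFinset, if f y = b then 1 else 0 := by
  induction l with
  | nil => simp
  | cons z l ih =>
    rw [List.nodup_cons] at hl
    rw [List.map_cons, List.count_cons, ih hl.2, List.toFinset_cons,
      sum_insert (by simpa using hl.1), add_comm]
    simp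

/-- The pair count through the order given by `p`. -/
theorem br_pc {l : List ℕ} {p : ℕ → ℚ} (hs : l.Pairwise fun x y => p x < p y) (f : ℕ → ℕ)
    (a b : ℕ) : pc a b (l.map f) =
      ∑ x ∈ l.toFinset, ∑ y ∈ l.toFinset, if f x = a ∧ f y = b ∧ p x < p y then 1 else 0 := by
  induction l with
  | nil => simp [pc]
  | cons z l ih =>
    have hn := br_nodup hs
    rw [List.nodup_cons] at hn
    rw [List.pairwise_cons] at hs
    have hz : z ∉ l.toFinset := by simpa using hn.1
    rw [List.map_cons, pc, ih hs.2, List.toFinset_cons, sum_insert hz, sum_insert hz, add_comm,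
      br_count l hn.2]
    have e1 : (∑ x ∈ l.toFinset, ∑ y ∈ insert z l.toFinset,
        if f x = a ∧ f y = b ∧ p x < p y then 1 else 0) =
        ∑ x ∈ l.toFinset, ∑ y ∈ l.toFinset, if f x = a ∧ f y = b ∧ p x < p y then 1 else 0 := by
      refine sum_congr rfl fun x hx => ?_
      have := hs.1 x (List.mem_toFinset.1 hx)
      rw [sum_insert hz, if_neg (fun h => lt_asymm this h.2.2), zero_add]
    have e2 : (∑ y ∈ l.toFinset, if f z = a ∧ f y = b ∧ p z < p y then 1 else 0) =
        if f z = a then ∑ y ∈ l.toFinset, if f y = b then 1 else 0 else 0 := by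
      by_cases h : f z = a
      · rw [if_pos h]
        refine sum_congr rfl fun y hy => ?_
        have := hs.1 y (List.mem_toFinset.1 hy)
        simp [h, this]
      · rw [if_neg h]
        exact sum_eq_zero fun y _ => if_neg fun h' => h h'.1
    rw [e1, e2, if_neg (show ¬ (f z = a ∧ f z = b ∧ p z < p z) from fun h => lt_irrefl _ h.2.2),
      zero_add]

theorem br_sum2 {s : Finset ℕ} {P : ℕ → Prop} [DecidablePred P] {k : ℕ}
    (h : ∀ x, (x ∈ s ∧ P x) ↔ x = k ∨ x = k + 1) (g : ℕ → ℕ) :
    (∑ x ∈ s, if P x then g x else 0) = g k + g (k + 1) := by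
  rw [← sum_filter]
  have : s.filter P = {k, k + 1} := by
    ext x; rw [mem_filter, h]; simp
  rw [this, sum_pair (by omega)]

/-- The number of interleaved pairs of labels through the chords. -/
theorem br_inter {l : List ℕ} {p : ℕ → ℚ} (hs : l.Pairwise fun x y => p x < p y) (f : ℕ → ℕ)
    (K : Finset ℕ) (h1 : ∀ k ∈ K, ∀ x, (x ∈ l ∧ f x = f k) ↔ x = k ∨ x = k + 1)
    (h2 : ∀ x ∈ l, ∃ k ∈ K, f x = f k) :
    inter (l.map f) = ∑ i ∈ K, ∑ j ∈ K,
      if i ≠ j then c1 (p i) (p (i + 1)) (p j) (p (j + 1)) else 0 := by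
  have m0 : ∀ k ∈ K, k ∈ l := fun k hk => ((h1 k hk k).2 (Or.inl rfl)).1
  have m1 : ∀ k ∈ K, k + 1 ∈ l ∧ f (k + 1) = f k := fun k hk => (h1 k hk (k + 1)).2 (Or.inr rfl)
  have hinj : ∀ i ∈ K, ∀ j ∈ K, f i = f j → i = j := by
    intro i hi j hj e
    have a1 := (h1 j hj i).1 ⟨m0 i hi, e⟩
    have a2 := (h1 i hi j).1 ⟨m0 j hj, e.symm⟩
    omega
  have hS : (l.map f).toFinset = K.image f := by
    ext a
    simp only [List.mem_toFinset, List.mem_map, mem_image]
    constructor
    · rintro ⟨x, hx, rfl⟩
      obtain ⟨k, hk, e⟩ := h2 x hx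
      exact ⟨k, hk, e.symm⟩
    · rintro ⟨k, hk, rfl⟩
      exact ⟨k, m0 k hk, rfl⟩
  unfold inter
  rw [hS, card_filter, sum_product, sum_image hinj]
  refine sum_congr rfl fun i hi => ?_
  rw [sum_image hinj]
  refine sum_congr rfl fun j hj => ?_
  by_cases hij : i = j
  · simp [hij]
  have hf : f i ≠ f j := fun e => hij (hinj i hi j hj e)
  have e : pc (f i) (f j) (l.map f) =
      ((if p i < p j then 1 else 0) + if p i < p (j + 1) then 1 else 0) +
        ((if p (i + 1) < p j then 1 else 0) + if p (i + 1) < p (j + 1) then 1 else 0) := by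
    rw [br_pc hs]
    have e1 : ∀ x : ℕ, (∑ y ∈ l.toFinset, if f x = f i ∧ f y = f j ∧ p x < p y then 1 else 0) =
        if f x = f i then (if p x < p j then 1 else 0) + if p x < p (j + 1) then 1 else 0
          else 0 := by
      intro x
      rw [← br_sum2 (s := l.toFinset) (P := fun y => f y = f j)
        (fun y => by rw [List.mem_toFinset]; exact h1 j hj y)
        (fun y => if p x < p y then 1 else 0)]
      by_cases h : f x = f i
      · rw [if_pos h]
        refine sum_congr rfl fun y _ => ?_
        by_cases h' : f y = f j <;> simp [h, h']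
      · rw [if_neg h]
        exact sum_eq_zero fun y _ => if_neg fun h' => h h'.1
    simp only [e1]
    exact br_sum2 (s := l.toFinset) (P := fun x => f x = f i)
      (fun y => by rw [List.mem_toFinset]; exact h1 i hi y)
      (fun x => (if p x < p j then 1 else 0) + if p x < p (j + 1) then 1 else 0)
  have ne : ∀ x ∈ l, ∀ y ∈ l, f x = f i → f y = f j → p x ≠ p y := fun x hx y hy e1 e2 =>
    br_inj hs hx hy fun e => hf (by rw [← e1, e, e2])
  rw [c1_eq (ne _ (m0 i hi) _ (m0 j hj) rfl rfl) (ne _ (m0 i hi) _ (m1 j hj).1 rfl (m1 j hj).2)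
    (ne _ (m1 i hi).1 _ (m0 j hj) (m1 i hi).2 rfl)
    (ne _ (m1 i hi).1 _ (m1 j hj).1 (m1 i hi).2 (m1 j hj).2)]
  simp only [e]
  by_cases q1 : p i < p j <;> by_cases q2 : p i < p (j + 1) <;> by_cases q3 : p (i + 1) < p j <;>
    by_cases q4 : p (i + 1) < p (j + 1) <;> simp [q1, q2, q3, q4, hf, hij, Nat.odd_iff]

theorem br_sym (c : ℕ → ℕ → ℕ) (n : ℕ) (h0 : ∀ i < n, c i i = 0)
    (hs : ∀ i < n, ∀ j < n, c i j = c j i) :
    ∑ i ∈ range n, ∑ j ∈ range n, c i j = 2 * ∑ j ∈ range n, ∑ i ∈ range j, c i j := by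
  induction n with
  | zero => simp
  | succ n ih =>
    have ih' := ih (fun i hi => h0 i (by omega)) fun i hi j hj => hs i (by omega) j (by omega)
    have e : ∑ j ∈ range n, c n j = ∑ i ∈ range n, c i n :=
      sum_congr rfl fun j hj => hs n (by omega) j (by have := mem_range.1 hj; omega)
    simp only [sum_range_succ, sum_add_distrib]
    rw [ih', e, h0 n (by omega)]
    ring

/-- The points of the line with the two vertices. -/
def brFull (L : Line) : List ℕ := L.a ++ 0 :: L.b ++ (L.m + 1) :: L.c

theorem br_mem_all {L : Line} (h : Lab L) (x : ℕ) : x ∈ L.all ↔ 1 ≤ x ∧ x ≤ L.m := by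
  rw [h.2.mem_iff, List.mem_range'_1]; omega

theorem br_mem_full {L : Line} (h : Lab L) (x : ℕ) : x ∈ brFull L ↔ x ≤ L.m + 1 := by
  have := br_mem_all h x
  simp only [Line.all, List.mem_append] at this
  simp only [brFull, List.mem_append, List.mem_cons]
  constructor
  · rintro ((h1 | h1 | h1) | h1 | h1)
    · have := this.1 (Or.inl (Or.inl h1)); omega
    · omega
    · have := this.1 (Or.inl (Or.inr h1)); omega
    · omega
    · have := this.1 (Or.inr h1); omega
  · intro hx
    by_cases h0 : x = 0
    · exact Or.inl (Or.inr (Or.inl h0))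
    by_cases h1 : x = L.m + 1
    · exact Or.inr (Or.inl h1)
    rcases this.2 (by omega) with (h2 | h2) | h2
    · exact Or.inl (Or.inl h2)
    · exact Or.inl (Or.inr (Or.inr h2))
    · exact Or.inr (Or.inr h2)

theorem br_sub (L : Line) : L.all.Sublist (brFull L) :=
  ((List.Sublist.refl _).append (List.sublist_cons_self _ _)).append (List.sublist_cons_self _ _)

/-- The main identity. -/
theorem br_XL {L : Line} (h : Lab L) {p : ℕ → ℚ}
    (hs : (brFull L).Pairwise fun x y => p x < p y) : XL L = 2 * X L.m p := by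
  obtain ⟨t, ht⟩ := h.1
  have e1 := br_inter (hs.sublist (br_sub L)) (fun x => (x + 1) / 2)
    ((range (L.m + 1)).filter fun k => k % 2 = 1)
    (fun k hk x => by
      rw [mem_filter, mem_range] at hk
      rw [br_mem_all h]
      omega)
    (fun x hx => by
      rw [br_mem_all h] at hx
      refine ⟨2 * ((x + 1) / 2) - 1, ?_, ?_⟩
      · rw [mem_filter, mem_range]; omega
      · omega)
  have e2 := br_inter hs (fun x => x / 2) ((range (L.m + 1)).filter fun k => k % 2 = 0)
    (fun k hk x => by
      rw [mem_filter, mem_range] at hk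
      rw [br_mem_full h]
      omega)
    (fun x hx => by
      rw [br_mem_full h] at hx
      refine ⟨2 * (x / 2), ?_, ?_⟩
      · rw [mem_filter, mem_range]; omega
      · omega)
  have ne : ∀ x ≤ L.m + 1, ∀ y ≤ L.m + 1, x ≠ y → p x ≠ p y := fun x hx y hy e =>
    br_inj hs ((br_mem_full h x).2 hx) ((br_mem_full h y).2 hy) e
  have e3 := br_sym (fun i j => if i ≠ j ∧ i % 2 = j % 2 then
      c1 (p i) (p (i + 1)) (p j) (p (j + 1)) else 0) (L.m + 1) (fun i _ => by simp)
    (fun i hi j hj => by
      by_cases hc : i ≠ j ∧ i % 2 = j % 2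
      · rw [if_pos hc, if_pos ⟨hc.1.symm, hc.2.symm⟩]
        have := hc.1
        have := hc.2
        exact c1_symm (ne _ (by omega) _ (by omega) (by omega))
          (ne _ (by omega) _ (by omega) (by omega)) (ne _ (by omega) _ (by omega) (by omega))
          (ne _ (by omega) _ (by omega) (by omega))
      · rw [if_neg hc, if_neg fun h' => hc ⟨h'.1.symm, h'.2.symm⟩])
  have e4 : X L.m p = ∑ j ∈ range (L.m + 1), ∑ i ∈ range j, if i ≠ j ∧ i % 2 = j % 2 then
      c1 (p i) (p (i + 1)) (p j) (p (j + 1)) else 0 := by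
    unfold X
    refine sum_congr rfl fun j _ => sum_congr rfl fun i hi => ?_
    have : i ≠ j := (mem_range.1 hi).ne
    simp [this]
  have e5 : XL L = inter (L.all.map fun x => (x + 1) / 2) +
      inter ((brFull L).map fun x => x / 2) := rfl
  rw [e5, e1, e2, e4, ← e3, sum_filter, sum_filter, ← sum_add_distrib]
  refine sum_congr rfl fun i _ => ?_
  rcases Nat.mod_two_eq_zero_or_one i with hi | hi
  · rw [if_neg (by omega), if_pos hi, zero_add, sum_filter]
    refine sum_congr rfl fun j _ => ?_
    by_cases hj : j % 2 = 0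
    · simp [hi, hj]
    · rw [if_neg hj, if_neg (by omega)]
  · rw [if_pos hi, if_neg (by omega), add_zero, sum_filter]
    refine sum_congr rfl fun j _ => ?_
    by_cases hj : j % 2 = 1
    · simp [hi, hj]
    · rw [if_neg hj, if_neg (by omega)]

/-- The order along the line from the order on the three segments. -/
theorem br_full {L : Line} {p : ℕ → ℚ} (h0 : p 0 = 1) (h1 : p (L.m + 1) = 2)
    (ha : ∀ x ∈ L.a, p x < 1) (hb : ∀ x ∈ L.b, 1 < p x ∧ p x < 2) (hc : ∀ x ∈ L.c, 2 < p x)
    (sa : L.a.Pairwise fun x y => p x < p y) (sb : L.b.Pairwise fun x y => p x < p y)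
    (sc : L.c.Pairwise fun x y => p x < p y) : (brFull L).Pairwise fun x y => p x < p y := by
  unfold brFull
  rw [List.pairwise_append, List.pairwise_append, List.pairwise_cons, List.pairwise_cons]
  refine ⟨⟨sa, ⟨fun y hy => ?_, sb⟩, fun x hx y hy => ?_⟩, ⟨fun y hy => ?_, sc⟩,
    fun x hx y hy => ?_⟩
  · rw [h0]; exact (hb y hy).1
  · have := ha x hx
    rcases List.mem_cons.1 hy with rfl | hy
    · rwa [h0]
    · linarith [(hb y hy).1]
  · rw [h1]; exact hc y hy
  · have k1 : p x < 2 := by
      rcases List.mem_append.1 hx with hx | hx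
      · linarith [ha x hx]
      · rcases List.mem_cons.1 hx with rfl | hx
        · rw [h0]; norm_num
        · exact (hb x hx).2
    rcases List.mem_cons.1 hy with rfl | hy
    · rwa [h1]
    · linarith [hc y hy]

/-- The letter of a point. -/
def brLet (L : Line) (x : ℕ) : Fin 3 := if x ∈ L.a then 0 else if x ∈ L.b then 1 else 2

theorem br_word (L : Line) : wordOf L = (List.range L.m).map fun i => brLet L (i + 1) := rfl

theorem br_len (L : Line) : (wordOf L).length = L.m := by simp [wordOf]

theorem br_let {L : Line} (h : Lab L) : (∀ x ∈ L.a, brLet L x = 0) ∧ (∀ x ∈ L.b, brLet L x = 1) ∧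
    ∀ x ∈ L.c, brLet L x = 2 := by
  have hn : (L.a ++ L.b ++ L.c).Nodup := h.2.nodup_iff.2 (List.nodup_range' 1)
  rw [List.nodup_append, List.nodup_append] at hn
  refine ⟨fun x hx => if_pos hx, fun x hx => ?_, fun x hx => ?_⟩
  · unfold brLet
    rw [if_neg fun h' => hn.1.2.2 x h' x hx rfl, if_pos hx]
  · unfold brLet
    rw [if_neg fun h' => hn.2.2 x (List.mem_append_left _ h') x hx rfl,
      if_neg fun h' => hn.2.2 x (List.mem_append_right _ h') x hx rfl]

theorem br_count1 {L : Line} (h : Lab L) : (wordOf L).count 1 = L.b.length := by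
  obtain ⟨ha, hb, hc⟩ := br_let h
  have e : wordOf L = (List.range' 1 L.m).map (brLet L) := by
    rw [br_word, List.range'_eq_map_range, List.map_map]
    refine List.map_congr_left fun i _ => ?_
    simp [add_comm]
  rw [e, ← (h.2.map (brLet L)).count_eq, Line.all, List.map_append, List.map_append,
    List.count_append, List.count_append]
  have k1 : (L.a.map (brLet L)).count 1 = 0 := by
    rw [List.count_eq_zero]
    intro hm
    obtain ⟨x, hx, e⟩ := List.mem_map.1 hm
    rw [ha x hx] at e
    exact absurd e (by decide)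
  have k3 : (L.c.map (brLet L)).count 1 = 0 := by
    rw [List.count_eq_zero]
    intro hm
    obtain ⟨x, hx, e⟩ := List.mem_map.1 hm
    rw [hc x hx] at e
    exact absurd e (by decide)
  have k2 : (L.b.map (brLet L)).count 1 = (L.b.map (brLet L)).length := by
    rw [List.count_eq_length]
    intro y hm
    obtain ⟨x, hx, e⟩ := List.mem_map.1 hm
    rw [← e, hb x hx]
  rw [k1, k2, k3, List.length_map]
  omega

theorem br_part1 {L : Line} (h : Lab L) : 2 * I (wordOf L) ≤ XL L := by
  obtain ⟨ha, hb, hc⟩ := br_let h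
  have hn : L.all.Nodup := h.2.nodup_iff.2 (List.nodup_range' 1)
  let r : ℕ → ℚ := fun x => ((L.all.idxOf x : ℚ) + 1) / ((L.m : ℚ) + 1)
  have hm : (0 : ℚ) < (L.m : ℚ) + 1 := by positivity
  have hr : ∀ x ∈ L.all, 0 < r x ∧ r x < 1 := by
    intro x hx
    have h1 : L.all.idxOf x < L.m := List.idxOf_lt_length_of_mem hx
    have h2 : (L.all.idxOf x : ℚ) < L.m := by exact_mod_cast h1
    refine ⟨by positivity, ?_⟩
    rw [div_lt_one hm]
    linarith
  have sr : L.all.Pairwise fun x y => r x < r y := by
    rw [List.pairwise_iff_getElem]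
    intro i j hi hj hij
    have h2 : (i : ℚ) < j := by exact_mod_cast hij
    simp only [r, hn.idxOf_getElem]
    exact div_lt_div_of_pos_right (by linarith) hm
  let p : ℕ → ℚ := fun x => if x = 0 then 1 else if x = L.m + 1 then 2 else
    ((brLet L x).val : ℚ) + r x
  have hp : ∀ x ∈ L.all, p x = ((brLet L x).val : ℚ) + r x := by
    intro x hx
    have := (br_mem_all h x).1 hx
    simp only [p]
    rw [if_neg (by omega), if_neg (by omega)]
  have ia : L.a.Sublist L.all :=
    (List.sublist_append_left _ _).trans (List.sublist_append_left _ _)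
  have ib : L.b.Sublist L.all :=
    (List.sublist_append_right _ _).trans (List.sublist_append_left _ _)
  have ic : L.c.Sublist L.all := List.sublist_append_right _ _
  have sp : ∀ (l : List ℕ) (z : Fin 3), l.Sublist L.all → (∀ x ∈ l, brLet L x = z) →
      l.Pairwise fun x y => p x < p y := by
    intro l z hl hz
    refine (sr.sublist hl).imp_of_mem fun {x y} hx hy hxy => ?_
    rw [hp x (hl.subset hx), hp y (hl.subset hy), hz x hx, hz y hy]
    linarith
  have h0 : p 0 = 1 := if_pos rfl
  have h1 : p (L.m + 1) = 2 := by simp [p]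
  have hs : (brFull L).Pairwise fun x y => p x < p y := by
    refine br_full h0 h1 (fun x hx => ?_) (fun x hx => ?_) (fun x hx => ?_) (sp _ 0 ia ha)
      (sp _ 1 ib hb) (sp _ 2 ic hc)
    · rw [hp x (ia.subset hx), ha x hx]
      simpa using (hr x (ia.subset hx)).2
    · rw [hp x (ib.subset hx), hb x hx]
      have := hr x (ib.subset hx)
      constructor
      · simpa using this.1
      · have e : (((1 : Fin 3).val : ℕ) : ℚ) = 1 := by norm_num
        linarith [this.2]
    · rw [hp x (ic.subset hx), hc x hx]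
      simpa using (hr x (ic.subset hx)).1
  have hfit : Fit 1 2 (wordOf L) p := by
    refine ⟨by rw [h0]; norm_num, by rw [br_len, h1]; norm_num, fun j x hx => ?_,
      fun x hx y hy e => ?_⟩
    · rw [br_word, List.getElem?_map] at hx
      obtain ⟨i, hi, rfl⟩ := Option.map_eq_some_iff.1 hx
      obtain ⟨hj, rfl⟩ := List.getElem?_eq_some_iff.1 hi
      rw [List.length_range] at hj
      rw [List.getElem_range]
      have hmem : j + 1 ∈ L.all := (br_mem_all h _).2 (by omega)
      rw [hp _ hmem]
      have := hr _ hmem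
      constructor <;> linarith [this.1, this.2]
    · rw [br_len] at hx hy
      by_contra hne
      exact br_inj hs ((br_mem_full h x).2 hx) ((br_mem_full h y).2 hy) hne e
  have := IG_le hfit
  rw [br_len] at this
  rw [br_XL h hs]
  exact Nat.mul_le_mul_left 2 this

theorem br_part2 {v : Wd} (hv : Even v.length) {p : ℕ → ℚ} (hfit : Fit 1 2 v p) :
    ∃ L, Lab L ∧ wordOf L = v ∧ XL L = 2 * X v.length p := by
  let R : ℕ → ℕ → Prop := fun x y => p x ≤ p y
  have : Std.Total R := ⟨fun x y => le_total _ _⟩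
  have : IsTrans ℕ R := ⟨fun x y z => le_trans⟩
  let S : List ℕ := (List.range' 1 v.length).insertionSort R
  have hS : S.Perm (List.range' 1 v.length) := List.perm_insertionSort R _
  have mS : ∀ x, x ∈ S ↔ 1 ≤ x ∧ x ≤ v.length := fun x => by
    rw [hS.mem_iff, List.mem_range'_1]; omega
  have nS : S.Nodup := hS.nodup_iff.2 (List.nodup_range' 1)
  have sS : S.Pairwise fun x y => p x < p y := by
    refine ((List.pairwise_insertionSort R _).and nS).imp_of_mem fun {x y} hx hy hxy => ?_
    have h1 := (mS x).1 hx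
    have h2 := (mS y).1 hy
    exact lt_of_le_of_ne hxy.1 (hfit.ne (by omega) (by omega) hxy.2)
  let l : ℕ → Fin 3 := fun x => v.getD (x - 1) 0
  have hl : ∀ x ∈ S, v[x - 1]? = some (l x) := by
    intro x hx
    have h1 := (mS x).1 hx
    have h2 : x - 1 < v.length := by omega
    simp [l, List.getD_eq_getElem?_getD, List.getElem?_eq_getElem h2]
  have hp : ∀ x ∈ S, ((l x).val : ℚ) < p x ∧ p x < ((l x).val : ℚ) + 1 := by
    intro x hx
    have h1 := (mS x).1 hx
    have := hfit.mem _ _ (hl x hx)
    rwa [show x - 1 + 1 = x by omega] at this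
  let L : Line := ⟨S.filter fun x => l x = 0, S.filter fun x => l x = 1, S.filter fun x => l x = 2⟩
  have hall : L.all.Perm S := by
    rw [List.perm_iff_count]
    intro x
    have k : ∀ z : Fin 3, (S.filter fun x => l x = z).count x = if l x = z then S.count x else 0 := by
      intro z
      by_cases hz : l x = z
      · rw [if_pos hz, List.count_filter (by simpa using hz)]
      · rw [if_neg hz, List.count_eq_zero]
        intro hm
        exact hz (by simpa using (List.mem_filter.1 hm).2)
    simp only [Line.all, L, List.count_append, k]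
    generalize l x = z
    fin_cases z <;> simp
  have hm : L.m = v.length := by
    rw [Line.m, hall.length_eq, hS.length_eq, List.length_range']
  have hL : Lab L := ⟨hm ▸ hv, by rw [hm]; exact hall.trans hS⟩
  have mem : ∀ (z : Fin 3) (x : ℕ), x ∈ (S.filter fun x => l x = z) ↔ x ∈ S ∧ l x = z := by
    intro z x; simp
  refine ⟨L, hL, ?_, ?_⟩
  · apply List.ext_getElem (by rw [br_len, hm])
    intro i h1 h2
    have hi : i + 1 ∈ S := (mS _).2 (by omega)
    have e := hl _ hi
    rw [Nat.add_sub_cancel, List.getElem?_eq_getElem h2, Option.some.injEq] at e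
    simp only [br_word, List.getElem_map, List.getElem_range, e, brLet, L, mem, hi, true_and]
    generalize l (i + 1) = z
    fin_cases z <;> simp
  · rw [← hm]
    refine br_XL hL (br_full ?_ ?_ (fun x hx => ?_) (fun x hx => ?_) (fun x hx => ?_)
      (sS.filter _) (sS.filter _) (sS.filter _))
    · rw [hfit.h0]; norm_num
    · rw [hm, hfit.h1]; norm_num
    · obtain ⟨k1, k2⟩ := (mem 0 x).1 hx
      have := (hp x k1).2
      rw [k2] at this
      simpa using this
    · obtain ⟨k1, k2⟩ := (mem 1 x).1 hx
      have := hp x k1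
      rw [k2] at this
      have e : (((1 : Fin 3).val : ℕ) : ℚ) = 1 := by norm_num
      constructor <;> linarith [this.1, this.2]
    · obtain ⟨k1, k2⟩ := (mem 2 x).1 hx
      have := (hp x k1).1
      rw [k2] at this
      simpa using this

theorem br_of : StmtG0 → StmtBR := by
  intro hG
  refine ⟨fun L h => ⟨br_part1 h, br_count1 h⟩, fun v hv => ?_⟩
  obtain ⟨p, hfit, e⟩ := hG.1 1 2 v (by decide)
  obtain ⟨L, h1, h2, h3⟩ := br_part2 hv hfit
  exact ⟨L, h1, h2, by rw [h3, e]; rfl⟩

end Pool.Agent.MP_d5eec5_gt.H77
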