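import Pool.Agent.MP_d5eec5_gt.H77.KNum

/-! Flat moves that keep the numbering lift to descending diagrams. -/

set_option autoImplicit false

namespace Pool.Agent.MP_d5eec5_gt.H77

open Pool.Agent.MP_d5eec5_gt.H48 Kind

/-- The local form of `TL1`. -/
def TlaLoc (l r : List Gen) : Prop := ∀ (l' : List Gen) (m m' C : List ℕ), fl l' = fl l →
  Num true m l' m' C → (m ++ C).Nodup → Ok m.length r →
    ∃ r' C', fl r' = fl r ∧ Num true m r' m' C' ∧ C'.Perm C ∧ (Move l' r' ∨ Move r' l')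

theorem tla_of_loc {l r : List Gen} (h : TlaLoc l r) : TL1 l r := by
  rintro u v l' hok hfl ⟨h1, h2, C, hn, hC⟩
  obtain ⟨m', C₁₂, C₃, hn1, hv, rfl⟩ := Num.append_iff.mp hn
  obtain ⟨m, C₁, C₂, hu, hl, rfl⟩ := Num.append_iff.mp hn1
  have e : cnt 0 u = m.length := hu.ok.2
  obtain ⟨r', C', e1, hr, hp, hm⟩ := h l' m m' C₂ hfl hl
    (hu.nodup_append (by simpa using hC.of_append_left)) (e ▸ hok)
  have hc : ∀ e, r'.countP (IsEnd e) = l'.countP (IsEnd e) := fun e => by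
    rcases hm with hm | hm
    · exact ((FMove.mv hm).countP_eq e).symm
    · exact (FMove.mv hm).countP_eq e
  refine ⟨r', e1, ⟨?_, ?_, C₁ ++ C' ++ C₃, (hu.append hr).append hv, ?_⟩, hm⟩
  · simpa only [List.countP_append, hc] using h1
  · simpa only [List.countP_append, hc] using h2
  · exact ((hp.append_left C₁).append_right C₃).nodup_iff.mpr hC

theorem tla_fl_nil {w : List Gen} (h : fl w = fl []) : w = [] := by
  cases w with
  | nil => rfl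
  | cons g w => simp at h

theorem tla_fl_cons {w v : List Gen} {p : ℕ} {k : Kind} (h : fl w = fl ((p, k) :: v)) :
    ∃ k' w', w = (p, k') :: w' ∧ flK k' = flK k ∧ fl w' = fl v := by
  cases w with
  | nil => simp at h
  | cons g w =>
    obtain ⟨p', k'⟩ := g
    simp only [fl_cons, List.cons.injEq, Prod.mk.injEq] at h
    obtain ⟨⟨rfl, hk⟩, h⟩ := h
    exact ⟨k', w, rfl, hk, h⟩

theorem tla_fl_cr {w v : List Gen} {p : ℕ} {b : Bool} (h : fl w = fl ((p, cr b) :: v)) :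
    ∃ a w', w = (p, cr a) :: w' ∧ fl w' = fl v := by
  obtain ⟨k', w', rfl, hk, h'⟩ := tla_fl_cons h
  cases k' with
  | cr a => exact ⟨a, w', rfl, h'⟩
  | _ => simp [flK] at hk

theorem tla_fl_cup {w v : List Gen} {p : ℕ} (h : fl w = fl ((p, cup) :: v)) :
    ∃ w', w = (p, cup) :: w' ∧ fl w' = fl v := by
  obtain ⟨k', w', rfl, hk, h'⟩ := tla_fl_cons h
  cases k' with
  | cup => exact ⟨w', rfl, h'⟩
  | _ => simp [flK] at hk

theorem tla_fl_cap {w v : List Gen} {p : ℕ} (h : fl w = fl ((p, cap) :: v)) :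
    ∃ w', w = (p, cap) :: w' ∧ fl w' = fl v := by
  obtain ⟨k', w', rfl, hk, h'⟩ := tla_fl_cons h
  cases k' with
  | cap => exact ⟨w', rfl, h'⟩
  | _ => simp [flK] at hk

theorem tla_pre {a b c e : List ℕ} (h : a ++ b = c ++ e) (hl : c.length ≤ a.length) :
    ∃ f, a = c ++ f ∧ e = f ++ b := by
  rcases List.append_eq_append_iff.mp h with ⟨f, rfl, rfl⟩ | h
  · have : f = [] := by
      rw [List.length_append] at hl
      exact List.eq_nil_of_length_eq_zero (by omega)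
    subst this
    exact ⟨[], by simp, by simp⟩
  · exact h

theorem tla_split0 {m : List ℕ} {p : ℕ} (h : p ≤ m.length) :
    ∃ l₁ l₂, m = l₁ ++ l₂ ∧ l₁.length = p :=
  ⟨m.take p, m.drop p, (List.take_append_drop p m).symm, by simp [h]⟩

theorem tla_split1 {m : List ℕ} {p : ℕ} (h : p + 1 ≤ m.length) :
    ∃ l₁ x l₂, m = l₁ ++ x :: l₂ ∧ l₁.length = p := by
  obtain ⟨l₁, l₂, rfl, e⟩ := tla_split0 (m := m) (p := p) (by omega)
  cases l₂ with
  | nil => simp at h; omega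
  | cons x l₂ => exact ⟨l₁, x, l₂, rfl, e⟩

theorem tla_split2 {m : List ℕ} {p : ℕ} (h : p + 2 ≤ m.length) :
    ∃ l₁ x y l₂, m = l₁ ++ x :: y :: l₂ ∧ l₁.length = p := by
  obtain ⟨l₁, x, l₂, rfl, e⟩ := tla_split1 (m := m) (p := p) (by omega)
  cases l₂ with
  | nil => simp at h; omega
  | cons y l₂ => exact ⟨l₁, x, y, l₂, rfl, e⟩

theorem tla_split3 {m : List ℕ} {p : ℕ} (h : p + 3 ≤ m.length) :
    ∃ l₁ x y z l₂, m = l₁ ++ x :: y :: z :: l₂ ∧ l₁.length = p := by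
  obtain ⟨l₁, x, y, l₂, rfl, e⟩ := tla_split2 (m := m) (p := p) (by omega)
  cases l₂ with
  | nil => simp at h; omega
  | cons z l₂ => exact ⟨l₁, x, y, z, l₂, rfl, e⟩

/-- Consecutive numbers whose minimum has the parity `i`. -/
def TlaP (i x y : ℕ) : Prop := (x % 2 = i ∧ y = x + 1) ∨ (y % 2 = i ∧ x = y + 1)

theorem TlaP.symm {i x y : ℕ} (h : TlaP i x y) : TlaP i y x := Or.symm h

section inv

variable {l₁ l₂ l' C : List ℕ} {w : List Gen} {p x y : ℕ}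

theorem tla_cr {b : Bool} (e : l₁.length = p) :
    Num true (l₁ ++ x :: y :: l₂) ((p, cr b) :: w) l' C ↔
      (b = true ↔ x < y) ∧ Num true (l₁ ++ y :: x :: l₂) w l' C := by
  rw [Num.cons_iff]
  constructor
  · rintro ⟨k₁, k₂, _, _, C', e1, e2, ⟨s, t, rfl, rfl, hb⟩, h, rfl⟩
    rw [List.append_assoc] at e1
    obtain ⟨rfl, e3⟩ := List.append_inj e1 (e.trans e2.symm)
    simp only [List.cons_append, List.nil_append, List.cons.injEq] at e3
    obtain ⟨rfl, rfl, rfl⟩ := e3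
    exact ⟨hb rfl, by simpa using h⟩
  · rintro ⟨hb, h⟩
    exact ⟨l₁, l₂, [x, y], [y, x], C, by simp, e, ⟨x, y, rfl, rfl, fun _ => hb⟩, by simpa using h,
      by simp⟩

theorem tla_cap (e : l₁.length = p) :
    Num true (l₁ ++ x :: y :: l₂) ((p, cap) :: w) l' C ↔
      TlaP 0 x y ∧ Num true (l₁ ++ l₂) w l' C := by
  rw [Num.cons_iff]
  constructor
  · rintro ⟨k₁, k₂, _, _, C', e1, e2, ⟨rfl, t, ht, hx⟩, h, rfl⟩
    rw [List.append_assoc] at e1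
    obtain ⟨rfl, e3⟩ := List.append_inj e1 (e.trans e2.symm)
    rw [Nat.even_iff] at ht
    rcases hx with rfl | rfl
    · simp only [List.cons_append, List.nil_append, List.cons.injEq] at e3
      obtain ⟨rfl, rfl, rfl⟩ := e3
      exact ⟨Or.inl ⟨ht, rfl⟩, by simpa using h⟩
    · simp only [List.cons_append, List.nil_append, List.cons.injEq] at e3
      obtain ⟨rfl, rfl, rfl⟩ := e3
      exact ⟨Or.inr ⟨ht, rfl⟩, by simpa using h⟩
  · rintro ⟨hb, h⟩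
    refine ⟨l₁, l₂, [x, y], [], C, by simp, e, ⟨rfl, ?_⟩, by simpa using h, by simp⟩
    rcases hb with ⟨h1, rfl⟩ | ⟨h1, rfl⟩
    · exact ⟨x, Nat.even_iff.mpr h1, Or.inl rfl⟩
    · exact ⟨y, Nat.even_iff.mpr h1, Or.inr rfl⟩

theorem tla_cup (e : l₁.length = p) :
    Num true (l₁ ++ l₂) ((p, cup) :: w) l' C ↔
      ∃ x y C', TlaP 1 x y ∧ Num true (l₁ ++ x :: y :: l₂) w l' C' ∧ C = x :: y :: C' := by
  rw [Num.cons_iff]
  constructor
  · rintro ⟨k₁, k₂, _, _, C', e1, e2, ⟨rfl, t, ht, hx⟩, h, rfl⟩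
    rw [List.append_nil] at e1
    obtain ⟨rfl, rfl⟩ := List.append_inj e1 (e.trans e2.symm)
    rw [Nat.odd_iff] at ht
    rcases hx with rfl | rfl
    · exact ⟨t, t + 1, C', Or.inl ⟨ht, rfl⟩, by simpa using h, by simp⟩
    · exact ⟨t + 1, t, C', Or.inr ⟨ht, rfl⟩, by simpa using h, by simp⟩
  · rintro ⟨x, y, C', hb, h, rfl⟩
    refine ⟨l₁, l₂, [], [x, y], C', by simp, e, ⟨rfl, ?_⟩, by simpa using h, by simp⟩
    rcases hb with ⟨h1, rfl⟩ | ⟨h1, rfl⟩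
    · exact ⟨x, Nat.odd_iff.mpr h1, Or.inl rfl⟩
    · exact ⟨y, Nat.odd_iff.mpr h1, Or.inr rfl⟩

theorem tla_cr1 {b : Bool} {s : ℕ} (e : l₁.length = p) :
    Num true (l₁ ++ s :: x :: y :: l₂) ((p + 1, cr b) :: w) l' C ↔
      (b = true ↔ x < y) ∧ Num true (l₁ ++ s :: y :: x :: l₂) w l' C := by
  have := tla_cr (l₁ := l₁ ++ [s]) (l₂ := l₂) (l' := l') (C := C) (w := w) (p := p + 1) (x := x)
    (y := y) (b := b) (by simp [e])
  simpa only [List.append_assoc, List.singleton_append] using this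

theorem tla_cap1 {s : ℕ} (e : l₁.length = p) :
    Num true (l₁ ++ s :: x :: y :: l₂) ((p + 1, cap) :: w) l' C ↔
      TlaP 0 x y ∧ Num true (l₁ ++ s :: l₂) w l' C := by
  have := tla_cap (l₁ := l₁ ++ [s]) (l₂ := l₂) (l' := l') (C := C) (w := w) (p := p + 1) (x := x)
    (y := y) (by simp [e])
  simpa only [List.append_assoc, List.singleton_append] using this

theorem tla_cup1 {s : ℕ} (e : l₁.length = p) :
    Num true (l₁ ++ s :: l₂) ((p + 1, cup) :: w) l' C ↔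
      ∃ x y C', TlaP 1 x y ∧ Num true (l₁ ++ s :: x :: y :: l₂) w l' C' ∧ C = x :: y :: C' := by
  have := tla_cup (l₁ := l₁ ++ [s]) (l₂ := l₂) (l' := l') (C := C) (w := w) (p := p + 1)
    (by simp [e])
  simpa only [List.append_assoc, List.singleton_append] using this

end inv

theorem tla_far_a {k l : Kind} {x x' y y' : List ℕ} (c f b : List ℕ) (h1 : Loc true k x' y')
    (h2 : Loc true l x y) {p q : ℕ} (hp : c.length = p) (hq : (c ++ x' ++ f).length = q) :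
    Num true (c ++ x' ++ (f ++ (x ++ b))) [(q, l), (p, k)] (c ++ y' ++ (f ++ (y ++ b)))
      ((if x = [] then y else []) ++ ((if x' = [] then y' else []) ++ [])) :=
  Num.cons_iff.mpr ⟨c ++ x' ++ f, b, x, y, _, by simp, hq, h2,
    Num.cons_iff.mpr ⟨c, f ++ (y ++ b), x', y', _, by simp, hp, h1, Num.nil _, rfl⟩, rfl⟩

theorem tla_far_b {k l : Kind} {x x' y y' : List ℕ} (c f b : List ℕ) (h1 : Loc true k x' y')
    (h2 : Loc true l x y) {p q : ℕ} (hp : c.length = p) (hq : (c ++ y' ++ f).length = q) :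
    Num true (c ++ x' ++ (f ++ (x ++ b))) [(p, k), (q, l)] (c ++ y' ++ (f ++ (y ++ b)))
      ((if x' = [] then y' else []) ++ ((if x = [] then y else []) ++ [])) :=
  Num.cons_iff.mpr ⟨c, f ++ (x ++ b), x', y', _, rfl, hp, h1,
    Num.cons_iff.mpr ⟨c ++ y' ++ f, b, x, y, _, by simp, hq, h2,
      Num.nil_iff.mpr ⟨by simp, rfl⟩, rfl⟩, rfl⟩

theorem tla_win {k k' : Kind} (h : flK k' = flK k) : win k' = win k ∧ wout k' = wout k :=
  ⟨by rw [← win_flK, h, win_flK], by rw [← wout_flK, h, wout_flK]⟩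

theorem tla_far1 (p q : ℕ) (k l : Kind) (h : p + win k ≤ q) :
    TlaLoc [(q, l), (p, k)] [(p, k), (q - win k + wout k, l)] := by
  intro w m m' C hfl hn _ _
  obtain ⟨l', w, rfl, el, hfl1⟩ := tla_fl_cons hfl
  obtain ⟨k', w, rfl, ek, hfl2⟩ := tla_fl_cons hfl1
  obtain rfl := tla_fl_nil hfl2
  obtain ⟨e1, e2⟩ := tla_win ek
  obtain ⟨a, b, x, y, C₁, rfl, ha, h2, hn1, rfl⟩ := Num.cons_iff.mp hn
  obtain ⟨c, e, x', y', C₂, e0, hc, h1, hn2, rfl⟩ := Num.cons_iff.mp hn1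
  obtain ⟨rfl, rfl⟩ := Num.nil_iff.mp hn2
  obtain ⟨n1, n2⟩ := h1.length
  rw [List.append_assoc a] at e0
  obtain ⟨f, rfl, rfl⟩ := tla_pre e0 (by rw [List.length_append]; omega)
  refine ⟨[(p, k'), (q - win k' + wout k', l')],
    (if x' = [] then y' else []) ++ ((if x = [] then y else []) ++ []),
    by simp [e1, e2, ek, el], ?_, ?_, Or.inl (Move.far p q k' l' (by omega))⟩
  · have := tla_far_b c f b h1 h2 hc (q := q - win k' + wout k')
      (by simp only [List.length_append] at ha ⊢; omega)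
    simpa only [List.append_assoc] using this
  · simp only [List.append_nil]
    exact List.perm_append_comm

theorem tla_far2 (p q : ℕ) (k l : Kind) (h : p + win k ≤ q) :
    TlaLoc [(p, k), (q - win k + wout k, l)] [(q, l), (p, k)] := by
  intro w m m' C hfl hn _ _
  obtain ⟨k', w, rfl, ek, hfl1⟩ := tla_fl_cons hfl
  obtain ⟨l', w, rfl, el, hfl2⟩ := tla_fl_cons hfl1
  obtain rfl := tla_fl_nil hfl2
  obtain ⟨e1, e2⟩ := tla_win ek
  obtain ⟨c, e, x', y', C₂, rfl, hc, h1, hn1, rfl⟩ := Num.cons_iff.mp hn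
  obtain ⟨a, b, x, y, C₁, e0, ha, h2, hn2, rfl⟩ := Num.cons_iff.mp hn1
  obtain ⟨rfl, rfl⟩ := Num.nil_iff.mp hn2
  obtain ⟨n1, n2⟩ := h1.length
  rw [List.append_assoc a] at e0
  obtain ⟨f, rfl, rfl⟩ := tla_pre e0.symm (by rw [List.length_append]; omega)
  refine ⟨[(q, l'), (p, k')], (if x = [] then y else []) ++ ((if x' = [] then y' else []) ++ []),
    by simp [ek, el], ?_, ?_, Or.inr ?_⟩
  · have := tla_far_a c f b h1 h2 hc (q := q)
      (by simp only [List.length_append] at ha ⊢; omega)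
    simpa only [List.append_assoc] using this
  · simp only [List.append_nil]
    exact List.perm_append_comm
  · rw [← e1, ← e2]
    exact Move.far p q k' l' (by omega)

theorem tla_pcup1 (p : ℕ) : TlaLoc [(p + 1, cup), (p, cr true)] [(p, cup), (p + 1, cr true)] := by
  intro w m m' C hfl hn hd _
  obtain ⟨w, rfl, hfl1⟩ := tla_fl_cup hfl
  obtain ⟨a, w, rfl, hfl2⟩ := tla_fl_cr hfl1
  obtain rfl := tla_fl_nil hfl2
  obtain ⟨l₁, s, l₂, rfl, e⟩ := tla_split1 (m := m) (p := p) (by simpa [win] using hn.ok.1.1)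
  obtain ⟨x, y, C', hp, hn1, rfl⟩ := (tla_cup1 e).mp hn
  obtain ⟨ha, hn2⟩ := (tla_cr e).mp hn1
  have n1 : s ≠ x := fun h => (List.nodup_append.mp hd).2.2 s (by simp) x (by simp) h
  have n2 : s ≠ y := fun h => (List.nodup_append.mp hd).2.2 s (by simp) y (by simp) h
  refine ⟨[(p, cup), (p + 1, cr !a)], _, rfl, (tla_cup e).mpr ⟨x, y, C', hp,
    (tla_cr1 e).mpr ⟨?_, hn2⟩, rfl⟩, List.Perm.refl _, Or.inl (Move.pcup p a)⟩
  unfold TlaP at hp
  cases a <;> simp at ha ⊢ <;> omega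

theorem tla_pcup2 (p : ℕ) : TlaLoc [(p, cup), (p + 1, cr true)] [(p + 1, cup), (p, cr true)] := by
  intro w m m' C hfl hn hd hok
  obtain ⟨w, rfl, hfl1⟩ := tla_fl_cup hfl
  obtain ⟨a, w, rfl, hfl2⟩ := tla_fl_cr hfl1
  obtain rfl := tla_fl_nil hfl2
  obtain ⟨l₁, s, l₂, rfl, e⟩ := tla_split1 (m := m) (p := p) (by simpa [win] using hok.1)
  obtain ⟨x, y, C', hp, hn1, rfl⟩ := (tla_cup e).mp hn
  obtain ⟨ha, hn2⟩ := (tla_cr1 e).mp hn1
  have n1 : s ≠ x := fun h => (List.nodup_append.mp hd).2.2 s (by simp) x (by simp) h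
  have n2 : s ≠ y := fun h => (List.nodup_append.mp hd).2.2 s (by simp) y (by simp) h
  refine ⟨[(p + 1, cup), (p, cr !a)], _, rfl, (tla_cup1 e).mpr ⟨x, y, C', hp,
    (tla_cr e).mpr ⟨?_, hn2⟩, rfl⟩, List.Perm.refl _, Or.inr ?_⟩
  · unfold TlaP at hp
    cases a <;> simp at ha ⊢ <;> omega
  · have := Move.pcup p (!a)
    rwa [Bool.not_not] at this

theorem tla_nd3 {l₁ l₂ C : List ℕ} {x y z : ℕ} (hd : (l₁ ++ x :: y :: z :: l₂ ++ C).Nodup) :
    x ≠ y ∧ x ≠ z ∧ y ≠ z := by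
  have h := hd.of_append_left.of_append_right
  simp only [List.nodup_cons, List.mem_cons, not_or] at h
  exact ⟨h.1.1, h.1.2.1, h.2.1.1⟩

theorem tla_pcap1 (p : ℕ) : TlaLoc [(p, cr true), (p + 1, cap)] [(p + 1, cr true), (p, cap)] := by
  intro w m m' C hfl hn hd hok
  obtain ⟨a, w, rfl, hfl1⟩ := tla_fl_cr hfl
  obtain ⟨w, rfl, hfl2⟩ := tla_fl_cap hfl1
  obtain rfl := tla_fl_nil hfl2
  obtain ⟨l₁, x, s, y, l₂, rfl, e⟩ := tla_split3 (m := m) (p := p) (by simpa [win] using hok.1)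
  obtain ⟨ha, hn1⟩ := (tla_cr e).mp hn
  obtain ⟨hp, hn2⟩ := (tla_cap1 e).mp hn1
  obtain ⟨n1, -, n2⟩ := tla_nd3 hd
  refine ⟨[(p + 1, cr !a), (p, cap)], _, rfl, (tla_cr1 e).mpr ⟨?_, (tla_cap e).mpr ⟨hp, hn2⟩⟩,
    List.Perm.refl _, Or.inl (Move.pcap p a)⟩
  unfold TlaP at hp
  cases a <;> simp at ha ⊢ <;> omega

theorem tla_pcap2 (p : ℕ) : TlaLoc [(p + 1, cr true), (p, cap)] [(p, cr true), (p + 1, cap)] := by
  intro w m m' C hfl hn hd _
  obtain ⟨a, w, rfl, hfl1⟩ := tla_fl_cr hfl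
  obtain ⟨w, rfl, hfl2⟩ := tla_fl_cap hfl1
  obtain rfl := tla_fl_nil hfl2
  obtain ⟨l₁, x, s, y, l₂, rfl, e⟩ :=
    tla_split3 (m := m) (p := p) (by simpa [win] using hn.ok.1.1)
  obtain ⟨ha, hn1⟩ := (tla_cr1 e).mp hn
  obtain ⟨hp, hn2⟩ := (tla_cap e).mp hn1
  obtain ⟨n1, -, n2⟩ := tla_nd3 hd
  refine ⟨[(p, cr !a), (p + 1, cap)], _, rfl, (tla_cr e).mpr ⟨?_, (tla_cap1 e).mpr ⟨hp, hn2⟩⟩,
    List.Perm.refl _, Or.inr ?_⟩
  · unfold TlaP at hp
    cases a <;> simp at ha ⊢ <;> omega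
  · have := Move.pcap p (!a)
    rwa [Bool.not_not] at this

theorem tla_r1cup1 (p : ℕ) : TlaLoc [(p, cup), (p, cr true)] [(p, cup)] := by
  intro w m m' C hfl hn _ hok
  obtain ⟨w, rfl, hfl1⟩ := tla_fl_cup hfl
  obtain ⟨a, w, rfl, hfl2⟩ := tla_fl_cr hfl1
  obtain rfl := tla_fl_nil hfl2
  obtain ⟨l₁, l₂, rfl, e⟩ := tla_split0 (m := m) (p := p) (by simpa [win] using hok.1)
  obtain ⟨x, y, C', hp, hn1, rfl⟩ := (tla_cup e).mp hn
  obtain ⟨-, hn2⟩ := (tla_cr e).mp hn1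
  exact ⟨[(p, cup)], _, rfl, (tla_cup e).mpr ⟨y, x, C', hp.symm, hn2, rfl⟩, List.Perm.swap _ _ _,
    Or.inl (Move.r1cup p a)⟩

theorem tla_r1cup2 (p : ℕ) : TlaLoc [(p, cup)] [(p, cup), (p, cr true)] := by
  intro w m m' C hfl hn _ hok
  obtain ⟨w, rfl, hfl1⟩ := tla_fl_cup hfl
  obtain rfl := tla_fl_nil hfl1
  obtain ⟨l₁, l₂, rfl, e⟩ := tla_split0 (m := m) (p := p) (by simpa [win] using hok.1)
  obtain ⟨x, y, C', hp, hn1, rfl⟩ := (tla_cup e).mp hn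
  exact ⟨[(p, cup), (p, cr (decide (y < x)))], _, rfl,
    (tla_cup e).mpr ⟨y, x, C', hp.symm, (tla_cr e).mpr ⟨by simp, hn1⟩, rfl⟩, List.Perm.swap _ _ _,
    Or.inr (Move.r1cup p _)⟩

theorem tla_r1cap1 (p : ℕ) : TlaLoc [(p, cr true), (p, cap)] [(p, cap)] := by
  intro w m m' C hfl hn _ hok
  obtain ⟨a, w, rfl, hfl1⟩ := tla_fl_cr hfl
  obtain ⟨w, rfl, hfl2⟩ := tla_fl_cap hfl1
  obtain rfl := tla_fl_nil hfl2
  obtain ⟨l₁, x, y, l₂, rfl, e⟩ := tla_split2 (m := m) (p := p) (by simpa [win] using hok.1)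
  obtain ⟨-, hn1⟩ := (tla_cr e).mp hn
  obtain ⟨hp, hn2⟩ := (tla_cap e).mp hn1
  exact ⟨[(p, cap)], _, rfl, (tla_cap e).mpr ⟨hp.symm, hn2⟩, List.Perm.refl _,
    Or.inl (Move.r1cap p a)⟩

theorem tla_r1cap2 (p : ℕ) : TlaLoc [(p, cap)] [(p, cr true), (p, cap)] := by
  intro w m m' C hfl hn _ hok
  obtain ⟨w, rfl, hfl1⟩ := tla_fl_cap hfl
  obtain rfl := tla_fl_nil hfl1
  obtain ⟨l₁, x, y, l₂, rfl, e⟩ := tla_split2 (m := m) (p := p) (by simpa [win] using hok.1)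
  obtain ⟨hp, hn1⟩ := (tla_cap e).mp hn
  exact ⟨[(p, cr (decide (x < y))), (p, cap)], _, rfl,
    (tla_cr e).mpr ⟨by simp, (tla_cap e).mpr ⟨hp.symm, hn1⟩⟩, List.Perm.refl _,
    Or.inr (Move.r1cap p _)⟩

theorem tla_nd2 {l₁ l₂ C : List ℕ} {x y : ℕ} (hd : (l₁ ++ x :: y :: l₂ ++ C).Nodup) : x ≠ y := by
  have h := hd.of_append_left.of_append_right
  simp only [List.nodup_cons, List.mem_cons, not_or] at h
  exact h.1.1

theorem tla_r21 (p : ℕ) : TlaLoc [(p, cr true), (p, cr true)] [] := by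
  intro w m m' C hfl hn hd _
  obtain ⟨a, w, rfl, hfl1⟩ := tla_fl_cr hfl
  obtain ⟨b, w, rfl, hfl2⟩ := tla_fl_cr hfl1
  obtain rfl := tla_fl_nil hfl2
  obtain ⟨l₁, x, y, l₂, rfl, e⟩ := tla_split2 (m := m) (p := p) (by simpa [win] using hn.ok.1.1)
  obtain ⟨ha, hn1⟩ := (tla_cr e).mp hn
  obtain ⟨hb, hn2⟩ := (tla_cr e).mp hn1
  have n1 := tla_nd2 hd
  have : b = !a := by cases a <;> cases b <;> simp at ha hb ⊢ <;> omega
  subst this
  exact ⟨[], _, rfl, hn2, List.Perm.refl _, Or.inl (Move.r2 p a)⟩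

theorem tla_r22 (p : ℕ) : TlaLoc [] [(p, cr true), (p, cr true)] := by
  intro w m m' C hfl hn hd hok
  obtain rfl := tla_fl_nil hfl
  obtain ⟨l₁, x, y, l₂, rfl, e⟩ := tla_split2 (m := m) (p := p) (by simpa [win] using hok.1)
  have n1 := tla_nd2 hd
  refine ⟨[(p, cr (decide (x < y))), (p, cr !(decide (x < y)))], _, rfl,
    (tla_cr e).mpr ⟨by simp, (tla_cr e).mpr ⟨?_, hn⟩⟩, List.Perm.refl _, Or.inr (Move.r2 p _)⟩
  simp
  omega

theorem tla_r3h {a b c : Bool} {x y z : ℕ} (ha : a = true ↔ x < y) (hb : b = true ↔ x < z)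
    (hc : c = true ↔ y < z) : a = c → b = a := by
  cases a <;> cases b <;> cases c <;> simp at ha hb hc ⊢ <;> omega

theorem tla_r31 (p : ℕ) : TlaLoc [(p, cr true), (p + 1, cr true), (p, cr true)]
    [(p + 1, cr true), (p, cr true), (p + 1, cr true)] := by
  intro w m m' C hfl hn _ hok
  obtain ⟨a, w, rfl, hfl1⟩ := tla_fl_cr hfl
  obtain ⟨b, w, rfl, hfl2⟩ := tla_fl_cr hfl1
  obtain ⟨c, w, rfl, hfl3⟩ := tla_fl_cr hfl2
  obtain rfl := tla_fl_nil hfl3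
  obtain ⟨l₁, x, y, z, l₂, rfl, e⟩ := tla_split3 (m := m) (p := p) (by simpa [win] using hok.1)
  obtain ⟨ha, hn1⟩ := (tla_cr e).mp hn
  obtain ⟨hb, hn2⟩ := (tla_cr1 e).mp hn1
  obtain ⟨hc, hn3⟩ := (tla_cr e).mp hn2
  exact ⟨[(p + 1, cr c), (p, cr b), (p + 1, cr a)], _, rfl,
    (tla_cr1 e).mpr ⟨hc, (tla_cr e).mpr ⟨hb, (tla_cr1 e).mpr ⟨ha, hn3⟩⟩⟩, List.Perm.refl _,
    Or.inl (Move.r3 p a b c (tla_r3h ha hb hc))⟩

theorem tla_r32 (p : ℕ) : TlaLoc [(p + 1, cr true), (p, cr true), (p + 1, cr true)]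
    [(p, cr true), (p + 1, cr true), (p, cr true)] := by
  intro w m m' C hfl hn _ _
  obtain ⟨c, w, rfl, hfl1⟩ := tla_fl_cr hfl
  obtain ⟨b, w, rfl, hfl2⟩ := tla_fl_cr hfl1
  obtain ⟨a, w, rfl, hfl3⟩ := tla_fl_cr hfl2
  obtain rfl := tla_fl_nil hfl3
  obtain ⟨l₁, x, y, z, l₂, rfl, e⟩ :=
    tla_split3 (m := m) (p := p) (by simpa [win] using hn.ok.1.1)
  obtain ⟨hc, hn1⟩ := (tla_cr1 e).mp hn
  obtain ⟨hb, hn2⟩ := (tla_cr e).mp hn1
  obtain ⟨ha, hn3⟩ := (tla_cr1 e).mp hn2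
  exact ⟨[(p, cr a), (p + 1, cr b), (p, cr c)], _, rfl,
    (tla_cr e).mpr ⟨ha, (tla_cr1 e).mpr ⟨hb, (tla_cr e).mpr ⟨hc, hn3⟩⟩⟩, List.Perm.refl _,
    Or.inr (Move.r3 p a b c (tla_r3h ha hb hc))⟩

theorem tla : StmtTLa :=
  ⟨fun p q k l h => ⟨tla_of_loc (tla_far1 p q k l h), tla_of_loc (tla_far2 p q k l h)⟩,
    fun p => ⟨tla_of_loc (tla_pcup1 p), tla_of_loc (tla_pcup2 p)⟩,
    fun p => ⟨tla_of_loc (tla_pcap1 p), tla_of_loc (tla_pcap2 p)⟩,
    fun p => ⟨tla_of_loc (tla_r1cup1 p), tla_of_loc (tla_r1cup2 p)⟩,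
    fun p => ⟨tla_of_loc (tla_r1cap1 p), tla_of_loc (tla_r1cap2 p)⟩,
    fun p => ⟨tla_of_loc (tla_r21 p), tla_of_loc (tla_r22 p)⟩,
    fun p => ⟨tla_of_loc (tla_r31 p), tla_of_loc (tla_r32 p)⟩⟩

end Pool.Agent.MP_d5eec5_gt.H77
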